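import Mathlib

set_option autoImplicit false

namespace Pool.Agent.Results.MP_c28122_co.Full

open Finset

/-- `A` is `t`-independent in `ℤ_n`. -/
def Indep (n t : ℕ) (A : Finset (ZMod n)) : Prop :=
  ∀ l : ZMod n → ℤ, ∑ a ∈ A, |l a| ≤ t → ∑ a ∈ A, l a • a = 0 → ∀ a ∈ A, l a = 0

/-- two-element form -/
def P (n t : ℕ) (a b : ZMod n) : Prop :=
  ∀ x y : ℤ, |x| + |y| ≤ t → (x : ZMod n) * a + (y : ZMod n) * b = 0 → x = 0 ∧ y = 0

lemma pair_of {n t : ℕ} {A : Finset (ZMod n)} (h : Indep n t A) {a b : ZMod n} (ha : a ∈ A)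
    (hb : b ∈ A) (hab : a ≠ b) : P n t a b := by
  classical
  intro x y h1 h2
  have hs : ({a, b} : Finset (ZMod n)) ⊆ A := by
    intro z hz; simp only [mem_insert, mem_singleton] at hz; rcases hz with rfl | rfl <;> assumption
  have key := h (fun z => if z = a then x else if z = b then y else 0) (by
    rw [← sum_subset hs (by
      intro z _ hz; simp only [mem_insert, mem_singleton, not_or] at hz; simp [hz.1, hz.2])]
    rw [sum_pair hab]; simpa [hab.symm] using h1) (by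
    rw [← sum_subset hs (by
      intro z _ hz; simp only [mem_insert, mem_singleton, not_or] at hz; simp [hz.1, hz.2])]
    rw [sum_pair hab]; simpa [hab.symm] using h2)
  exact ⟨by simpa using key a ha, by simpa [hab.symm] using key b hb⟩

lemma of_pair {n t : ℕ} (ht : 2 ≤ t) {a b : ZMod n} (h : P n t a b) :
    ∃ A : Finset (ZMod n), A.card = 2 ∧ Indep n t A := by
  classical
  have hab : a ≠ b := by
    rintro rfl
    have := h 1 (-1) (by simp; omega) (by simp)
    omega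
  refine ⟨{a, b}, card_pair hab, fun l h1 h2 z hz => ?_⟩
  rw [sum_pair hab] at h1 h2
  have := h (l a) (l b) h1 (by simpa using h2)
  simp only [mem_insert, mem_singleton] at hz
  rcases hz with rfl | rfl
  · exact this.1
  · exact this.2

lemma P_int (n t : ℕ) (a b : ℤ)
    (h : ∀ x y : ℤ, |x| + |y| ≤ t → (n : ℤ) ∣ x * a + y * b → x = 0 ∧ y = 0) :
    P n t (a : ZMod n) (b : ZMod n) := by
  intro x y h1 h2
  refine h x y h1 ((ZMod.intCast_zmod_eq_zero_iff_dvd _ n).mp ?_)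
  push_cast; exact h2

lemma cop (u v x y T : ℤ) (hu : 0 < u) (hv : 0 < v) (hc : IsCoprime u v) (hT : T < u + v)
    (h1 : |x| + |y| ≤ T) (h : x * u + y * v = 0) : x = 0 ∧ y = 0 := by
  have hv' : v ∣ x := hc.symm.dvd_of_dvd_mul_right ⟨-y, by linarith⟩
  obtain ⟨k, rfl⟩ := hv'
  have hy : y = -(k * u) := by
    have : v * (k * u + y) = 0 := by linarith
    rcases mul_eq_zero.mp this with h | h <;> omega
  subst hy
  by_cases hk : k = 0
  · simp [hk]
  · exfalso
    have : 1 ≤ |k| := Int.one_le_abs hk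
    rw [abs_neg, abs_mul, abs_mul, abs_of_pos hu, abs_of_pos hv] at h1
    nlinarith

lemma mult (n V B : ℤ) (hn : 0 < n) (h : n ∣ V) (h1 : |V| ≤ B) (hB : B < 2 * n) :
    V = 0 ∨ V = n ∨ V = -n := by
  obtain ⟨k, rfl⟩ := h
  rw [abs_le] at h1
  have a : k < 2 := by nlinarith
  have b : -2 < k := by nlinarith
  interval_cases k <;> simp

lemma bnd (x y u v T : ℤ) (hu : 0 ≤ u) (huv : u ≤ v) (h : |x| + |y| ≤ T) :
    |x * u + y * v| ≤ T * v := by
  have := abs_add_le (x * u) (y * v)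
  rw [abs_mul, abs_mul, abs_of_nonneg hu, abs_of_nonneg (hu.trans huv)] at this
  nlinarith [abs_nonneg x, abs_nonneg y]

lemma c1 (n s : ℕ) (hs : 2 ≤ s) (hn : 2 * s * s + s ≤ n) : ∃ a b, P n (2 * s - 1) a b := by
  refine ⟨_, _, P_int n _ s (s + 1) fun x y h1 h2 => ?_⟩
  have e : ((2 * s - 1 : ℕ) : ℤ) = 2 * s - 1 := by omega
  rw [e] at h1
  have hn' : (2 * s * s + s : ℤ) ≤ n := by exact_mod_cast hn
  have hs' : (2 : ℤ) ≤ s := by exact_mod_cast hs
  have hb := bnd x y s (s + 1) _ (by omega) (by omega) h1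
  have h0 : x * s + y * (s + 1) = 0 := by
    obtain ⟨k, hk⟩ := h2
    rw [hk] at hb ⊢
    rw [abs_le] at hb
    have a : k < 1 := by nlinarith
    have b : -1 < k := by nlinarith
    have : k = 0 := by omega
    simp [this]
  exact cop s (s + 1) x y _ (by omega) (by omega) ⟨-1, 1, by ring⟩ (by omega) h1 h0

lemma c2 (n s : ℕ) (hs : 2 ≤ s) (hn : 2 * s * s ≤ n) (h1 : s % 2 = 0) (h2 : n % 2 = 0) :
    ∃ a b, P n (2 * s - 1) a b := by
  refine ⟨_, _, P_int n _ (s - 1) (s + 1) fun x y h3 h4 => ?_⟩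
  have e : ((2 * s - 1 : ℕ) : ℤ) = 2 * s - 1 := by omega
  rw [e] at h3
  have hn' : (2 * s * s : ℤ) ≤ n := by exact_mod_cast hn
  have hs' : (2 : ℤ) ≤ s := by exact_mod_cast hs
  obtain ⟨r, hr⟩ : ∃ r : ℤ, (s : ℤ) = 2 * r := ⟨s / 2, by omega⟩
  have hpar : (x + y) % 2 = 0 := by
    have : (2 : ℤ) ∣ x * (s - 1) + y * (s + 1) := Dvd.dvd.trans (by omega) h4
    rw [hr] at this
    have e2 : x * (2 * r - 1) + y * (2 * r + 1) = 2 * (x * r + y * r) + (y - x) := by ring
    rw [e2] at this; omega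
  have h5 : |x| + |y| ≤ 2 * s - 2 := by
    rcases abs_cases x with a | a <;> rcases abs_cases y with b | b <;> omega
  have hb := bnd x y (s - 1) (s + 1) _ (by omega) (by omega) h5
  have h0 : x * (s - 1) + y * (s + 1) = 0 := by
    obtain ⟨k, hk⟩ := h4
    rw [hk] at hb ⊢
    rw [abs_le] at hb
    have a : k < 1 := by nlinarith
    have b : -1 < k := by nlinarith
    have : k = 0 := by omega
    simp [this]
  exact cop (s - 1) (s + 1) x y _ (by omega) (by omega)
    ⟨-(r + 1), r, by rw [hr]; ring⟩ (by omega) h3 h0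

lemma c3 (n s : ℕ) (hs : 2 ≤ s) (hn : 2 * s * s ≤ n) (h1 : s % 2 = 1) (h2 : n % 4 = 2) :
    ∃ a b, P n (2 * s - 1) a b := by
  refine ⟨_, _, P_int n _ (s - 2) (s + 2) fun x y h3 h4 => ?_⟩
  have e : ((2 * s - 1 : ℕ) : ℤ) = 2 * s - 1 := by omega
  rw [e] at h3
  have hn' : (2 * s * s : ℤ) ≤ n := by exact_mod_cast hn
  have hs' : (3 : ℤ) ≤ s := by omega
  obtain ⟨r, hr⟩ : ∃ r : ℤ, (s : ℤ) = 2 * r + 1 := ⟨s / 2, by omega⟩
  have e2 : x * (s - 2) + y * (s + 2) = 2 * ((x + y) * r) + (x + y) + 2 * (y - x) := by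
    rw [hr]; ring
  have hpar : (x + y) % 2 = 0 := by
    have : (2 : ℤ) ∣ x * (s - 2) + y * (s + 2) := Dvd.dvd.trans (by omega) h4
    rw [e2] at this; omega
  have h5 : |x| + |y| ≤ 2 * s - 2 := by
    rcases abs_cases x with a | a <;> rcases abs_cases y with b | b <;> omega
  have hb := bnd x y (s - 2) (s + 2) _ (by omega) (by omega) h5
  have h0 : x * (s - 2) + y * (s + 2) = 0 := by
    have hm := mult n _ _ (by nlinarith) h4 hb (by nlinarith)
    obtain ⟨w, hw⟩ : ∃ w : ℤ, x + y = 2 * w := ⟨(x + y) / 2, by omega⟩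
    have e3 : x * (s - 2) + y * (s + 2) = 4 * (w * r) + 2 * w + 2 * (y - x) := by
      rw [e2, hw]; ring
    have e4 : x * (s - 2) + y * (s + 2) = 2 * w * s + 2 * (y - x) := by
      rw [← hw]; ring
    have b1 : -(2 * s - 2) ≤ x + y ∧ x + y ≤ 2 * s - 2 ∧ -(2 * s - 2) ≤ y - x ∧ y - x ≤ 2 * s - 2 := by
      rcases abs_cases x with a | a <;> rcases abs_cases y with b | b <;> omega
    rcases hm with hm | hm | hm
    · exact hm
    · exfalso
      have : w ≤ s - 2 := by omega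
      nlinarith
    · exfalso
      have : -(s - 2) ≤ w := by omega
      nlinarith
  exact cop (s - 2) (s + 2) x y _ (by omega) (by omega)
    ⟨r * r + r - 1, -(r * r - r), by rw [hr]; ring⟩ (by omega) h3 h0

lemma short {n s : ℕ} (hs : 2 ≤ s) {a b : ZMod n} (h : P n (2 * s - 1) a b) (x y : ℤ)
    (h1 : |x + y| ≤ 2 * s - 1) (h2 : |y - x| ≤ 2 * s - 1)
    (h3 : (x : ZMod n) * a + (y : ZMod n) * b = 0) : x = 0 ∧ y = 0 := by
  refine h x y ?_ h3
  rw [abs_le] at h1 h2
  rcases abs_cases x with a | a <;> rcases abs_cases y with b | b <;> omega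

def F {n : ℕ} (a b : ZMod n) (p : ℕ × ℕ) : ZMod n :=
  (((p.1 / 2 : ℕ) - p.2 : ℤ) : ZMod n) * a + (((p.1 / 2 : ℕ) + p.2 + (p.1 % 2 : ℕ) : ℤ) : ZMod n) * b

lemma F_eq {n : ℕ} (a b : ZMod n) (p q : ℕ × ℕ) (h : F a b p = F a b q) :
    ∃ x y : ℤ, x + y = p.1 - q.1 ∧ y - x = 2 * p.2 + (p.1 % 2 : ℕ) - (2 * q.2 + (q.1 % 2 : ℕ)) ∧
      (x : ZMod n) * a + (y : ZMod n) * b = 0 := by
  refine ⟨((p.1 / 2 : ℕ) - p.2) - ((q.1 / 2 : ℕ) - q.2),
    ((p.1 / 2 : ℕ) + p.2 + (p.1 % 2 : ℕ)) - ((q.1 / 2 : ℕ) + q.2 + (q.1 % 2 : ℕ)), by omega, by omega, ?_⟩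
  unfold F at h
  rw [Int.cast_sub, Int.cast_sub (_ + _ + _)]
  linear_combination h

lemma vec {n s : ℕ} [NeZero n] (hs : 2 ≤ s) {a b : ZMod n} (h : P n (2 * s - 1) a b)
    (hn : n < 2 * s * s + s) : ∃ x y : ℤ, x + y = 2 * s ∧ |y - x| ≤ 2 * s - 2 ∧
      (x : ZMod n) * a + (y : ZMod n) * b = 0 := by
  obtain ⟨p, hp, q, hq, hne, he⟩ := exists_ne_map_eq_of_card_lt_of_maps_to
    (s := range (2 * s + 1) ×ˢ range s) (t := univ) (f := F a b)
    (by simp only [card_univ, ZMod.card, card_product, card_range]; nlinarith) (fun _ _ => by simp)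
  simp only [mem_product, mem_range] at hp hq
  obtain ⟨x, y, h1, h2, h3⟩ := F_eq a b p q he
  by_cases c : |x + y| ≤ 2 * s - 1
  · have := short hs h x y c (by rw [abs_le]; omega) h3
    exact absurd (Prod.ext (by omega) (by omega)) hne
  · by_cases d : 0 ≤ x + y
    · rw [abs_of_nonneg d] at c
      exact ⟨x, y, by omega, by rw [abs_le]; omega, h3⟩
    · rw [abs_of_neg (by omega)] at c
      exact ⟨-x, -y, by omega, by rw [abs_le]; omega, by push_cast; linear_combination -h3⟩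

lemma nonex {n s : ℕ} [NeZero n] (hs : 2 ≤ s) {a b : ZMod n} (h : P n (2 * s - 1) a b)
    (hn : n < 2 * s * s + s) : 2 * s * s ≤ n ∧ n % 2 = 0 ∧ ¬ (s % 2 = 1 ∧ n % 4 = 0) := by
  classical
  obtain ⟨x, y, p1, p2, p3⟩ := vec hs h hn
  have h' : P n (2 * s - 1) (-a) b := fun x y h1 h2 => by
    have := h (-x) y (by rwa [abs_neg]) (by push_cast; linear_combination h2)
    omega
  obtain ⟨x0, y', q1, q2, q3⟩ := vec hs h' hn
  obtain ⟨x', rfl⟩ : ∃ x', x0 = -x' := ⟨-x0, by ring⟩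
  replace q3 : (x' : ZMod n) * a + (y' : ZMod n) * b = 0 := by
    push_cast at q3; linear_combination q3
  rw [abs_le] at p2 q2
  obtain ⟨c, hc⟩ : ∃ c : ℤ, y = s + c := ⟨y - s, by ring⟩
  obtain ⟨d, hd⟩ : ∃ d : ℤ, y' = s + d := ⟨y' - s, by ring⟩
  have hx : x = s - c := by omega
  have hx' : x' = d - s := by omega
  have hcd : c * d ≤ 0 := by
    by_contra hc'
    rcases pos_and_pos_or_neg_and_neg_of_mul_pos (not_le.mp hc') with ⟨u, v⟩ | ⟨u, v⟩
    · have := short hs h (x - x') (y - y') (by rw [abs_le]; omega) (by rw [abs_le]; omega)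
        (by push_cast; linear_combination p3 - q3)
      omega
    · have := short hs h (x + x') (y + y') (by rw [abs_le]; omega) (by rw [abs_le]; omega)
        (by push_cast; linear_combination p3 + q3)
      omega
  obtain ⟨N, hN⟩ : ∃ N : ℤ, N = x * y' - x' * y := ⟨_, rfl⟩
  have hN2 : N = 2 * s * s - 2 * (c * d) := by rw [hN, hx, hx', hc, hd]; ring
  have ka : (N : ZMod n) * a = 0 := by
    rw [hN]; push_cast; linear_combination (y' : ZMod n) * p3 - (y : ZMod n) * q3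
  have kb : (N : ZMod n) * b = 0 := by
    rw [hN]; push_cast; linear_combination (x : ZMod n) * q3 - (x' : ZMod n) * p3
  let K : AddSubgroup (ZMod n) := (AddMonoidHom.mulLeft (N : ZMod n)).ker
  have hK : 2 * s * s ≤ Nat.card K := by
    have e : Nat.card K = (univ.filter fun z => z ∈ K).card := by
      rw [Nat.card_eq_fintype_card, Fintype.card_subtype]
    rw [e]
    have := card_le_card_of_injOn (s := range (2 * s) ×ˢ range s)
      (t := univ.filter fun z => z ∈ K) (F a b) (fun p _ => by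
        simp only [coe_filter, mem_univ, true_and, Set.mem_setOf_eq, K, AddMonoidHom.mem_ker,
          AddMonoidHom.coe_mulLeft, F]
        linear_combination (((p.1 / 2 : ℕ) - p.2 : ℤ) : ZMod n) * ka +
          (((p.1 / 2 : ℕ) + p.2 + (p.1 % 2 : ℕ) : ℤ) : ZMod n) * kb)
      (fun p hp q hq he => by
        simp only [coe_product, coe_range, Set.mem_prod, Set.mem_Iio] at hp hq
        obtain ⟨x, y, h1, h2, h3⟩ := F_eq a b p q he
        have := short hs h x y (by rw [abs_le]; omega) (by rw [abs_le]; omega) h3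
        exact Prod.ext (by omega) (by omega))
    simpa using this
  obtain ⟨k, hk⟩ := AddSubgroup.card_addSubgroup_dvd_card K
  rw [Nat.card_zmod] at hk
  have hn0 := NeZero.pos n
  have hk1 : k = 1 := by
    rcases k with _ | _ | k
    · omega
    · rfl
    · nlinarith
  have htop : K = ⊤ := AddSubgroup.eq_top_of_card_eq K (by rw [Nat.card_zmod]; rw [hk1, mul_one] at hk; exact hk.symm)
  have h1 : (1 : ZMod n) ∈ K := htop ▸ AddSubgroup.mem_top _
  simp only [K, AddMonoidHom.mem_ker, AddMonoidHom.coe_mulLeft, mul_one] at h1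
  have hle : 2 * s * s ≤ n := by rw [hk1, mul_one] at hk; omega
  have hle' : (2 * s * s : ℤ) ≤ n := by exact_mod_cast hle
  have hs' : (2 : ℤ) ≤ s := by exact_mod_cast hs
  have hNn : N = n := by
    have b1 : -(c * d) ≤ (s - 1) * (s - 1) := by
      have := abs_mul c d
      have u : |c| ≤ s - 1 := by rw [abs_le]; omega
      have v : |d| ≤ s - 1 := by rw [abs_le]; omega
      have := neg_abs_le (c * d)
      nlinarith [abs_nonneg c, abs_nonneg d]
    rcases mult n N N (by omega) ((ZMod.intCast_zmod_eq_zero_iff_dvd _ n).mp h1)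
      (by rw [abs_of_nonneg (by nlinarith)]) (by nlinarith) with u | u | u
    · nlinarith
    · exact u
    · nlinarith
  have hss : (2 * s * s : ℤ) = 2 * (s * s) := by ring
  refine ⟨hle, by omega, fun ⟨o1, o2⟩ => ?_⟩
  have hso : ((s : ℤ) * s) % 2 = 1 := by
    rw [Int.mul_emod, show (s : ℤ) % 2 = 1 by omega]; rfl
  have hodd : (c * d) % 2 = 1 := by omega
  have hc1 : c % 2 = 1 := by
    by_contra hh
    rw [Int.mul_emod, show c % 2 = 0 by omega] at hodd; simp at hodd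
  have hd1 : d % 2 = 1 := by
    by_contra hh
    rw [Int.mul_emod, show d % 2 = 0 by omega] at hodd; simp at hodd
  obtain ⟨x1, e1⟩ : ∃ z, x = 2 * z := ⟨x / 2, by omega⟩
  obtain ⟨y1, e2⟩ : ∃ z, y = 2 * z := ⟨y / 2, by omega⟩
  obtain ⟨x2, e3⟩ : ∃ z, x' = 2 * z := ⟨x' / 2, by omega⟩
  obtain ⟨y2, e4⟩ : ∃ z, y' = 2 * z := ⟨y' / 2, by omega⟩
  have w1 := (ZMod.neg_eq_self_iff ((x1 : ZMod n) * a + (y1 : ZMod n) * b)).mp (by
    rw [e1, e2] at p3; push_cast at p3; linear_combination -p3)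
  have w2 := (ZMod.neg_eq_self_iff ((x2 : ZMod n) * a + (y2 : ZMod n) * b)).mp (by
    rw [e3, e4] at q3; push_cast at q3; linear_combination -q3)
  rcases w1 with w1 | w1
  · have := short hs h x1 y1 (by rw [abs_le]; omega) (by rw [abs_le]; omega) w1
    omega
  rcases w2 with w2 | w2
  · have := short hs h x2 y2 (by rw [abs_le]; omega) (by rw [abs_le]; omega) w2
    omega
  have w := ZMod.val_injective n (show ((x1 : ZMod n) * a + (y1 : ZMod n) * b).val =
    ((x2 : ZMod n) * a + (y2 : ZMod n) * b).val by omega)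
  have := short hs h (x1 - x2) (y1 - y2) (by rw [abs_le]; omega) (by rw [abs_le]; omega)
    (by push_cast; linear_combination w)
  omega

theorem result (t n : ℕ) (ht : 3 ≤ t) (hodd : Odd t) (hn : 0 < n) :
    IsGreatest {k | ∃ A : Finset (ZMod n), A.card = k ∧ Indep n t A} 1 ↔
      (t + 1 ≤ n ∧ n ≤ t ^ 2 / 2 + t) ∨
      (t ^ 2 / 2 + t + 2 ≤ n ∧ n ≤ t ^ 2 / 2 + t + (t + 1) / 2 ∧
        (n % 2 = 1 ∨ (t % 4 = 1 ∧ n % 4 = 0))) := by
  classical
  haveI : NeZero n := ⟨by omega⟩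
  obtain ⟨s, hs, rfl⟩ : ∃ s, 2 ≤ s ∧ t = 2 * s - 1 := by
    obtain ⟨k, hk⟩ := hodd
    exact ⟨k + 1, by omega, by omega⟩
  have hb : (2 * s - 1) ^ 2 / 2 + (2 * s - 1) + 1 = 2 * s * s := by
    obtain ⟨r, rfl⟩ : ∃ r, s = r + 1 := ⟨s - 1, by omega⟩
    rw [show 2 * (r + 1) - 1 = 2 * r + 1 by omega,
      show (2 * r + 1) ^ 2 = 2 * (2 * r * r + 2 * r) + 1 by ring,
      show 2 * (r + 1) * (r + 1) = 2 * r * r + 4 * r + 2 by ring]
    omega
  have hss : 2 * s * s = 2 * (s * s) := by ring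
  have hs4 : 2 * s ≤ s * s := by nlinarith
  have hpar : (s * s) % 2 = s % 2 := by
    rw [Nat.mul_mod]; rcases Nat.mod_two_eq_zero_or_one s with h | h <;> simp [h]
  have hpar4 : s % 2 = 0 → (s * s) % 4 = 0 := fun h => by
    obtain ⟨r, rfl⟩ : ∃ r, s = 2 * r := ⟨s / 2, by omega⟩
    rw [show 2 * r * (2 * r) = 4 * (r * r) by ring]; omega
  constructor
  · rintro ⟨⟨A, hA, hI⟩, hub⟩
    obtain ⟨a, rfl⟩ := card_eq_one.mp hA
    have h1 : 2 * s ≤ n := by
      by_contra hc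
      have := hI (fun _ => n) (by simp; omega) (by simp) a (by simp)
      simp at this; omega
    have no : ¬ ∃ a b, P n (2 * s - 1) a b := by
      rintro ⟨a, b, h⟩
      have := hub (of_pair (by omega) h)
      omega
    have n1 : ¬ (2 * s * s + s ≤ n) := fun h => no (c1 n s hs h)
    have n2 : ¬ (2 * s * s ≤ n ∧ s % 2 = 0 ∧ n % 2 = 0) := fun h => no (c2 n s hs h.1 h.2.1 h.2.2)
    have n3 : ¬ (2 * s * s ≤ n ∧ s % 2 = 1 ∧ n % 4 = 2) := fun h => no (c3 n s hs h.1 h.2.1 h.2.2)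
    omega
  · intro h
    refine ⟨⟨{1}, card_singleton _, fun l h1 h2 a ha => ?_⟩, ?_⟩
    · rw [mem_singleton] at ha
      subst ha
      rw [sum_singleton] at h1 h2
      simp only [zsmul_eq_mul, mul_one] at h2
      obtain ⟨k, hk⟩ := (ZMod.intCast_zmod_eq_zero_iff_dvd _ n).mp h2
      by_contra hc
      have hk0 : k ≠ 0 := by rintro rfl; simp [hk] at hc
      have := Int.one_le_abs hk0
      rw [hk, abs_mul, Nat.abs_cast] at h1
      have : (n : ℤ) ≤ n * |k| := by nlinarith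
      omega
    · rintro k ⟨A, rfl, hI⟩
      by_contra hc
      obtain ⟨a, ha, b, hb', hab⟩ := one_lt_card.mp (not_le.mp hc)
      have := nonex hs (pair_of hI ha hb' hab) (by omega)
      omega

end Pool.Agent.Results.MP_c28122_co.Full
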